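import Pool.Agent.Y933.KI.General
import Pool.Agent.R942.AX.Lim

/-!
# The exceptional translates of arbitrary admissible functions
-/

set_option autoImplicit false

namespace Pool.Agent.U365.EP

open Set MeasureTheory Filter

/-- the sum of `e(f(n + u) + r(n))` over `N1 ≤ n ≤ N2` -/
noncomputable def S (f : ℝ → ℝ) (r : ℕ → ℝ) (u : ℝ) (N1 N2 : ℕ) : ℂ :=
  ∑ n ∈ Finset.Icc N1 N2, Complex.exp (2 * (Real.pi : ℂ) * Complex.I * ((f ((n : ℝ) + u) + r n : ℝ) : ℂ))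

/-- `f` is smooth on `[N, 2N]`, with `c_j F / N^j ≤ |f^(j)|` for all `j`, and `|f'| ≤ C F / N` -/
structure Adm (c : ℕ → ℝ) (C N F : ℝ) (f : ℝ → ℝ) : Prop where
  smooth : ContDiffOn ℝ (⊤ : ℕ∞) f (Icc N (2 * N))
  lower : ∀ j : ℕ, ∀ x ∈ Icc N (2 * N), c j * F / N ^ j ≤ |iteratedDerivWithin j f (Icc N (2 * N)) x|
  upper : ∀ x ∈ Icc N (2 * N), |iteratedDerivWithin 1 f (Icc N (2 * N)) x| ≤ C * F / N

/-- the bound of the pair `(0, 0)`, up to `F^ε`, for the translate by `u`, over all intervals -/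
def Good (ε N F : ℝ) (f : ℝ → ℝ) (r : ℕ → ℝ) (u : ℝ) : Prop :=
  ∀ N1 N2 : ℕ, N ≤ N1 → (N2 : ℝ) + u ≤ 2 * N → ‖S f r u N1 N2‖ ≤ N ^ (1 / 2 : ℝ) * F ^ ε

lemma e_sub (x y : ℝ) : ‖Complex.exp (2 * (Real.pi : ℂ) * Complex.I * (x : ℂ)) -
    Complex.exp (2 * (Real.pi : ℂ) * Complex.I * (y : ℂ))‖ ≤ 2 * Real.pi * |x - y| := by
  have h1 : Complex.exp (2 * (Real.pi : ℂ) * Complex.I * (x : ℂ)) - Complex.exp (2 * (Real.pi : ℂ) * Complex.I * (y : ℂ)) =
      Complex.exp (Complex.I * ((2 * Real.pi * y : ℝ) : ℂ)) *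
        (Complex.exp (Complex.I * ((2 * Real.pi * (x - y) : ℝ) : ℂ)) - 1) := by
    rw [mul_sub, ← Complex.exp_add, mul_one]
    congr 2
    · push_cast
      ring
    · push_cast
      ring
  rw [h1, norm_mul]
  have h2 : ‖Complex.exp (Complex.I * ((2 * Real.pi * y : ℝ) : ℂ))‖ = 1 := by
    rw [mul_comm]
    exact Complex.norm_exp_ofReal_mul_I _
  rw [h2, one_mul]
  refine (Real.norm_exp_I_mul_ofReal_sub_one_le).trans ?_
  rw [Real.norm_eq_abs, abs_mul, abs_of_pos Real.two_pi_pos]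

lemma Adm.lip {c : ℕ → ℝ} {C N F : ℝ} {f : ℝ → ℝ} (h : Adm c C N F f) {x y : ℝ}
    (hx : x ∈ Icc N (2 * N)) (hy : y ∈ Icc N (2 * N)) : |f x - f y| ≤ C * F / N * |x - y| := by
  have h5 := Convex.norm_image_sub_le_of_norm_derivWithin_le (f := f) (C := C * F / N) (s := Icc N (2 * N))
    (fun z hz => (h.smooth.differentiableOn (by simp)) z hz)
    (fun z hz => by
      have := h.upper z hz
      rw [iteratedDerivWithin_one] at this
      rw [Real.norm_eq_abs]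
      exact this) (convex_Icc _ _) hy hx
  rw [Real.norm_eq_abs, Real.norm_eq_abs] at h5
  exact h5

lemma stab {c : ℕ → ℝ} {C N F : ℝ} {f : ℝ → ℝ} (h : Adm c C N F f) (hC : 0 ≤ C) (hN : 2 ≤ N) (hF : 0 < F)
    (r : ℕ → ℝ) {u v : ℝ} (hv : 0 ≤ v) (hvu : v ≤ u) (huv : u - v ≤ 2 / F) {N1 N2 : ℕ} (h1 : N ≤ N1)
    (h2 : (N2 : ℝ) + u ≤ 2 * N) : ‖S f r u N1 N2‖ ≤ ‖S f r v N1 N2‖ + 8 * Real.pi * C := by
  have hN0 : 0 < N := by linarith
  have hterm : ∀ n ∈ Finset.Icc N1 N2, ‖Complex.exp (2 * (Real.pi : ℂ) * Complex.I * ((f ((n : ℝ) + u) + r n : ℝ) : ℂ)) -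
      Complex.exp (2 * (Real.pi : ℂ) * Complex.I * ((f ((n : ℝ) + v) + r n : ℝ) : ℂ))‖ ≤ 4 * Real.pi * C / N := by
    intro n hn
    rw [Finset.mem_Icc] at hn
    have a1 : N ≤ n := h1.trans (by exact_mod_cast hn.1)
    have a2 : (n : ℝ) ≤ N2 := by exact_mod_cast hn.2
    refine (e_sub _ _).trans ?_
    have e1 : f ((n : ℝ) + u) + r n - (f ((n : ℝ) + v) + r n) = f ((n : ℝ) + u) - f ((n : ℝ) + v) := by ring
    rw [e1]
    have h3 := h.lip (x := (n : ℝ) + u) (y := (n : ℝ) + v) ⟨by linarith, by linarith⟩ ⟨by linarith, by linarith⟩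
    have e2 : (n : ℝ) + u - (n + v) = u - v := by ring
    rw [e2, abs_of_nonneg (by linarith : (0 : ℝ) ≤ u - v)] at h3
    have h4 : C * F / N * (u - v) ≤ C * F / N * (2 / F) := by
      apply mul_le_mul_of_nonneg_left huv (by positivity)
    have e3 : C * F / N * (2 / F) = 2 * C / N := by field_simp
    have hpi := Real.pi_pos
    calc 2 * Real.pi * |f ((n : ℝ) + u) - f ((n : ℝ) + v)| ≤ 2 * Real.pi * (2 * C / N) := by
          apply mul_le_mul_of_nonneg_left _ Real.two_pi_pos.le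
          rw [← e3]
          exact h3.trans h4
      _ = 4 * Real.pi * C / N := by ring
  have hsum : ‖S f r u N1 N2 - S f r v N1 N2‖ ≤ 8 * Real.pi * C := by
    unfold S
    rw [← Finset.sum_sub_distrib]
    refine (norm_sum_le _ _).trans ((Finset.sum_le_sum hterm).trans ?_)
    rw [Finset.sum_const, nsmul_eq_mul]
    have hcard : ((Finset.Icc N1 N2).card : ℝ) ≤ 2 * N := by
      rw [Nat.card_Icc]
      rcases le_or_gt (N2 + 1) N1 with h5 | h5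
      · rw [Nat.sub_eq_zero_of_le h5]
        push_cast
        linarith
      · rw [Nat.cast_sub h5.le]
        push_cast
        linarith
    have hpi := Real.pi_pos
    calc ((Finset.Icc N1 N2).card : ℝ) * (4 * Real.pi * C / N) ≤ 2 * N * (4 * Real.pi * C / N) := by gcongr
      _ = 8 * Real.pi * C := by field_simp; ring
  have h6 := norm_sub_norm_le (S f r u N1 N2) (S f r v N1 N2)
  linarith

/-- one scale: few cells contain bad translates -/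
lemma scale (c : ℕ → ℝ) (hc : ∀ j, 0 < c j) : ∃ K : ℝ, 0 ≤ K ∧ ∀ (C N F ε : ℝ) (f : ℝ → ℝ) (r : ℕ → ℝ) (R : ℕ),
    0 ≤ C → 2 ≤ N → N ^ 2 ≤ F → Adm c C N F f → 16 * Real.pi * C ≤ F ^ ε → 
    ∀ A : Finset ℕ, (∀ k ∈ A, 1 ≤ k ∧ ∃ u : ℝ, (k : ℝ) / F ≤ u ∧ u ≤ ((k : ℝ) + 1) / F ∧ u ≤ R ∧ ¬ Good ε N F f r u) →
      (A.card : ℝ) ≤ K * (R + 1) * (1 + Real.log N) ^ 3 * F ^ (1 - 2 * ε) := by
  obtain ⟨K0, hK⟩ := Pool.Agent.Y933.KI.general c hc
  refine ⟨4 * |K0|, by positivity, fun C N F ε f r R hC hN hF h hlarge A hA => ?_⟩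
  have hN0 : 0 < N := by linarith
  have hF4 : 4 ≤ F := by nlinarith
  have hF0 : 0 < F := by linarith
  have hNF : N ≤ F := by nlinarith
  have hFε : 0 < F ^ ε := Real.rpow_pos_of_pos hF0 _
  have hlogN : 0 ≤ Real.log N := Real.log_nonneg (by linarith)
  have hNh : 1 ≤ N ^ (1 / 2 : ℝ) := Real.one_le_rpow (by linarith) (by norm_num)
  have hmain := hK N F f hN hNF h.smooth h.lower r 0 R (F ^ ε / 2) le_rfl (Nat.cast_nonneg _) (by positivity)
  set E := {u : ℝ | u ∈ Icc (0 : ℝ) R ∧ ∃ N1 N2 : ℕ, N ≤ N1 ∧ (N2 : ℝ) + u ≤ 2 * N ∧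
          N ^ (1 / 2 : ℝ) * (F ^ ε / 2) < ‖∑ n ∈ Finset.Icc N1 N2,
            Complex.exp (2 * (Real.pi : ℂ) * Complex.I * ((f ((n : ℝ) + u) + r n : ℝ) : ℂ))‖} with hE
  have hsub : (⋃ k ∈ A, Ico (((k : ℝ) - 1) / F) ((k : ℝ) / F)) ⊆ E := by
    intro v hv
    simp only [Set.mem_iUnion] at hv
    obtain ⟨k, hk, hv1, hv2⟩ := hv
    obtain ⟨hk1, u, hu1, hu2, huR, hbad⟩ := hA k hk
    have hk1' : (1 : ℝ) ≤ k := by exact_mod_cast hk1
    have hv0 : 0 ≤ v := le_trans (div_nonneg (by linarith) hF0.le) hv1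
    have hvu : v ≤ u := (hv2.le).trans hu1
    have huv : u - v ≤ 2 / F := by
      have e1 : ((k : ℝ) + 1) / F = ((k : ℝ) - 1) / F + 2 / F := by ring
      rw [e1] at hu2
      linarith
    unfold Good at hbad
    push Not at hbad
    obtain ⟨N1, N2, a1, a2, a3⟩ := hbad
    refine ⟨⟨hv0, hvu.trans huR⟩, N1, N2, a1, by linarith, ?_⟩
    have h2 := stab h hC hN hF0 r hv0 hvu huv a1 a2
    show N ^ (1 / 2 : ℝ) * (F ^ ε / 2) < ‖S f r v N1 N2‖
    have h3 : 8 * Real.pi * C ≤ N ^ (1 / 2 : ℝ) * (F ^ ε / 2) := by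
      calc 8 * Real.pi * C ≤ 1 * (F ^ ε / 2) := by linarith
        _ ≤ N ^ (1 / 2 : ℝ) * (F ^ ε / 2) := by gcongr
    have h4 : N ^ (1 / 2 : ℝ) * F ^ ε = N ^ (1 / 2 : ℝ) * (F ^ ε / 2) + N ^ (1 / 2 : ℝ) * (F ^ ε / 2) := by ring
    linarith
  have hvol : volume (⋃ k ∈ A, Ico (((k : ℝ) - 1) / F) ((k : ℝ) / F)) = ENNReal.ofReal (A.card * (1 / F)) := by
    rw [measure_biUnion_finset]
    · have h1 : ∀ k ∈ A, volume (Ico (((k : ℝ) - 1) / F) ((k : ℝ) / F)) = ENNReal.ofReal (1 / F) := by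
        intro k _
        rw [Real.volume_Ico]
        congr 1
        ring
      rw [Finset.sum_congr rfl h1, Finset.sum_const, nsmul_eq_mul, ENNReal.ofReal_mul (Nat.cast_nonneg _),
        ENNReal.ofReal_natCast]
    · intro k _ l _ hkl
      refine Set.disjoint_left.2 fun x hx hy => hkl ?_
      obtain ⟨hx1, hx2⟩ := hx
      obtain ⟨hy1, hy2⟩ := hy
      rw [div_le_iff₀ hF0] at hx1 hy1
      rw [lt_div_iff₀ hF0] at hx2 hy2
      have h1 : (k : ℝ) < l + 1 := by linarith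
      have h2 : (l : ℝ) < k + 1 := by linarith
      have h3 : k < l + 1 := by exact_mod_cast h1
      have h4 : l < k + 1 := by exact_mod_cast h2
      omega
    · intro k _
      exact measurableSet_Ico
  have h5 : ENNReal.ofReal (A.card * (1 / F)) ≤
      ENNReal.ofReal (K0 * (1 + Real.log N) ^ 3 * (((R : ℝ) - 0) + N ^ 2 / F) / (F ^ ε / 2) ^ 2) := by
    rw [← hvol]
    exact (measure_mono hsub).trans hmain
  have hNF1 : N ^ 2 / F ≤ 1 := by rw [div_le_one hF0]; exact hF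
  have h6 : K0 * (1 + Real.log N) ^ 3 * (((R : ℝ) - 0) + N ^ 2 / F) / (F ^ ε / 2) ^ 2 ≤
      4 * |K0| * (R + 1) * (1 + Real.log N) ^ 3 * (F ^ (1 - 2 * ε) / F) := by
    have e1 : F ^ (1 - 2 * ε) / F = 1 / (F ^ ε) ^ 2 := by
      rw [Real.rpow_sub hF0, Real.rpow_one, ← Real.rpow_natCast (F ^ ε) 2, ← Real.rpow_mul hF0.le]
      push_cast
      rw [mul_comm ε 2]
      field_simp
    rw [e1]
    have e2 : K0 * (1 + Real.log N) ^ 3 * (((R : ℝ) - 0) + N ^ 2 / F) / (F ^ ε / 2) ^ 2 =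
        4 * K0 * (((R : ℝ) + N ^ 2 / F)) * (1 + Real.log N) ^ 3 * (1 / (F ^ ε) ^ 2) := by
      field_simp
      ring
    rw [e2]
    have hR0 : (0 : ℝ) ≤ R := Nat.cast_nonneg _
    have hNF0 : 0 ≤ N ^ 2 / F := by positivity
    have h7 : 4 * K0 * ((R : ℝ) + N ^ 2 / F) ≤ 4 * |K0| * (R + 1) := by
      calc 4 * K0 * ((R : ℝ) + N ^ 2 / F) ≤ 4 * |K0| * ((R : ℝ) + N ^ 2 / F) := by
            apply mul_le_mul_of_nonneg_right _ (by linarith)
            linarith [le_abs_self K0]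
        _ ≤ 4 * |K0| * (R + 1) := by gcongr
    gcongr
  have h7 := h5.trans (ENNReal.ofReal_le_ofReal h6)
  rw [ENNReal.ofReal_le_ofReal_iff (by positivity)] at h7
  have h8 : (A.card : ℝ) * (1 / F) * F ≤ 4 * |K0| * (R + 1) * (1 + Real.log N) ^ 3 * (F ^ (1 - 2 * ε) / F) * F :=
    mul_le_mul_of_nonneg_right h7 hF0.le
  have e3 : (A.card : ℝ) * (1 / F) * F = A.card := by field_simp
  have e4 : 4 * |K0| * (R + 1) * (1 + Real.log N) ^ 3 * (F ^ (1 - 2 * ε) / F) * F =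
      4 * |K0| * (R + 1) * (1 + Real.log N) ^ 3 * F ^ (1 - 2 * ε) := by field_simp
  rw [e3, e4] at h8
  exact h8

end Pool.Agent.U365.EP
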