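import Pool.Agent.U365.EP.A

/-!
# The dimension of the set of the exceptional translates of arbitrary admissible functions
-/

set_option autoImplicit false

namespace Pool.Agent.U365.EP

open Set MeasureTheory Filter
open scoped ENNReal NNReal

lemma log_cube {τ N F : ℝ} (hτ : 0 < τ) (hN : 1 ≤ N) (hNF : N ≤ F) :
    (1 + Real.log N) ^ 3 ≤ (1 + 3 / τ) ^ 3 * F ^ τ := by
  have hN0 : 0 < N := by linarith
  have h1 : Real.log N ≤ N ^ (τ / 3) / (τ / 3) := Real.log_le_rpow_div hN0.le (by positivity)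
  have h2 : 1 ≤ N ^ (τ / 3) := Real.one_le_rpow hN (by positivity)
  have h3 : 1 + Real.log N ≤ (1 + 3 / τ) * N ^ (τ / 3) := by
    have e : N ^ (τ / 3) / (τ / 3) = 3 / τ * N ^ (τ / 3) := by field_simp
    rw [e] at h1
    linarith
  have h4 : 0 ≤ 1 + Real.log N := by have := Real.log_nonneg hN; linarith
  calc (1 + Real.log N) ^ 3 ≤ ((1 + 3 / τ) * N ^ (τ / 3)) ^ 3 := pow_le_pow_left₀ h4 h3 3
    _ = (1 + 3 / τ) ^ 3 * N ^ τ := by
        rw [mul_pow, ← Real.rpow_natCast (N ^ (τ / 3)) 3, ← Real.rpow_mul hN0.le]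
        congr 2
        push_cast
        ring
    _ ≤ (1 + 3 / τ) ^ 3 * F ^ τ := by
        have := Real.rpow_le_rpow hN0.le hNF hτ.le
        gcongr

theorem dim_R (c : ℕ → ℝ) (hc : ∀ j, 0 < c j) (C ε δ τ : ℝ) (hC : 0 ≤ C) (hε : 0 < ε) (hε2 : ε ≤ 1 / 2) (hδ : 0 < δ)
    (hτ : 0 < τ) (N F : ℕ → ℝ) (f : ℕ → ℝ → ℝ) (r : ℕ → ℕ → ℝ) (hN : ∀ j, 2 ≤ N j) (hF : ∀ j, N j ^ 2 ≤ F j)
    (hf : ∀ j, Adm c C (N j) (F j) (f j)) (hs : Summable fun j => F j ^ (-δ)) (R : ℕ) :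
    dimH {u : ℝ | 0 ≤ u ∧ u ≤ R ∧ ¬ ∀ᶠ j in atTop, Good ε (N j) (F j) (f j) (r j) u} ≤
      ENNReal.ofReal (1 - 2 * ε + δ + τ) := by
  classical
  obtain ⟨K, hK0, hK⟩ := scale c hc
  obtain ⟨s, hsd⟩ : ∃ s : ℝ, s = 1 - 2 * ε + δ + τ := ⟨_, rfl⟩
  have hs0 : 0 < s := by rw [hsd]; linarith
  rw [← hsd]
  have hF4 : ∀ j, 4 ≤ F j := fun j => by nlinarith [hN j, hF j]
  have hF0 : ∀ j, 0 < F j := fun j => by linarith [hF4 j]
  obtain ⟨Bad, hBad⟩ : ∃ Bad : ℕ → ℕ → Prop, Bad = fun (j k : ℕ) => 16 * Real.pi * C ≤ F j ^ ε ∧ (k = 0 ∨ (1 ≤ k ∧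
      ∃ u : ℝ, (k : ℝ) / F j ≤ u ∧ u ≤ ((k : ℝ) + 1) / F j ∧ u ≤ R ∧ ¬ Good ε (N j) (F j) (f j) (r j) u)) := ⟨_, rfl⟩
  obtain ⟨U, hU⟩ : ∃ U : ℕ × ℕ → Set ℝ, U = fun p => if Bad p.1 p.2 then
      Icc ((p.2 : ℝ) / F p.1) (((p.2 : ℝ) + 1) / F p.1) else ∅ := ⟨_, rfl⟩
  obtain ⟨W, hW⟩ : ∃ W : ℝ, W = 1 + K * (R + 1) * (1 + 3 / τ) ^ 3 := ⟨_, rfl⟩
  have hsum : ∑' p, Metric.ediam (U p) ^ s ≠ ⊤ := by
    rw [ENNReal.tsum_prod']
    have hrow : ∀ j : ℕ, ∑' k, Metric.ediam (U (j, k)) ^ s ≤ ENNReal.ofReal (W * F j ^ (-δ)) := by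
      intro j
      have hFj := hF0 j
      obtain ⟨M, hM⟩ : ∃ M : ℕ, M = ⌊(R : ℝ) * F j⌋₊ + 1 := ⟨_, rfl⟩
      have hz : ∀ k ∉ (Finset.range M).filter (fun k => Bad j k), Metric.ediam (U (j, k)) ^ s = 0 := by
        intro k hk
        have hnb : ¬ Bad j k := by
          intro hb
          apply hk
          rw [Finset.mem_filter, Finset.mem_range]
          refine ⟨?_, hb⟩
          rw [hBad] at hb
          rcases hb.2 with h0 | ⟨_, u, h1, _, h3, _⟩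
          · omega
          · rw [hM, Nat.lt_add_one_iff]
            refine Nat.le_floor ?_
            rw [← div_le_iff₀ hFj]
            exact h1.trans h3
        rw [hU]
        simp only [hnb, if_false, Metric.ediam_empty]
        exact ENNReal.zero_rpow_of_pos hs0
      rw [tsum_eq_sum hz]
      have h2 : ∀ k ∈ (Finset.range M).filter (fun k => Bad j k), Metric.ediam (U (j, k)) ^ s ≤
          ENNReal.ofReal ((1 / F j) ^ s) := by
        intro k hk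
        rw [Finset.mem_filter] at hk
        rw [hU]
        simp only [hk.2, if_true]
        rw [Real.ediam_Icc, ← ENNReal.ofReal_rpow_of_nonneg (by positivity) hs0.le]
        refine ENNReal.rpow_le_rpow (ENNReal.ofReal_le_ofReal (le_of_eq ?_)) hs0.le
        ring
      refine (Finset.sum_le_sum h2).trans ?_
      rw [Finset.sum_const, nsmul_eq_mul, ← ENNReal.ofReal_natCast, ← ENNReal.ofReal_mul (Nat.cast_nonneg _)]
      apply ENNReal.ofReal_le_ofReal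
      rcases Finset.eq_empty_or_nonempty ((Finset.range M).filter (fun k => Bad j k)) with he | ⟨k0, hk0⟩
      · rw [he, Finset.card_empty, Nat.cast_zero, zero_mul]
        have hW0 : 0 ≤ W := by rw [hW]; positivity
        have := Real.rpow_nonneg hFj.le (-δ)
        positivity
      · have hlarge : 16 * Real.pi * C ≤ F j ^ ε := by
          rw [Finset.mem_filter, hBad] at hk0
          exact hk0.2.1
        have h3 := hK C (N j) (F j) ε (f j) (r j) R hC (hN j) (hF j) (hf j) hlarge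
          (((Finset.range M).filter (fun k => Bad j k)).filter (fun k => 1 ≤ k)) (by
          intro k hk
          rw [Finset.mem_filter, Finset.mem_filter, hBad] at hk
          refine ⟨hk.2, ?_⟩
          rcases hk.1.2.2 with h0 | h1
          · omega
          · exact h1.2)
        have h4 : ((Finset.range M).filter (fun k => Bad j k)).card ≤
            (((Finset.range M).filter (fun k => Bad j k)).filter (fun k => 1 ≤ k)).card + 1 := by
          have hsub : (Finset.range M).filter (fun k => Bad j k) ⊆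
              insert 0 (((Finset.range M).filter (fun k => Bad j k)).filter (fun k => 1 ≤ k)) := by
            intro k hk
            rcases Nat.eq_zero_or_pos k with h0 | h0
            · rw [h0]; exact Finset.mem_insert_self _ _
            · exact Finset.mem_insert_of_mem (Finset.mem_filter.2 ⟨hk, h0⟩)
          exact (Finset.card_le_card hsub).trans (Finset.card_insert_le _ _)
        have h5 : ((((Finset.range M).filter (fun k => Bad j k)).card : ℕ) : ℝ) ≤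
            K * (R + 1) * (1 + Real.log (N j)) ^ 3 * F j ^ (1 - 2 * ε) + 1 := by
          have : ((((Finset.range M).filter (fun k => Bad j k)).card : ℕ) : ℝ) ≤
              ((((Finset.range M).filter (fun k => Bad j k)).filter (fun k => 1 ≤ k)).card : ℝ) + 1 := by
            exact_mod_cast h4
          linarith
        have h6 := log_cube (N := N j) (F := F j) hτ (by linarith [hN j]) (by nlinarith [hN j, hF j])
        have hp : (1 / F j) ^ s = F j ^ (-s) := by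
          rw [one_div, Real.inv_rpow hFj.le, Real.rpow_neg hFj.le]
        rw [hp]
        have hF1 : 1 ≤ F j := by linarith [hF4 j]
        have h7 : F j ^ (-s) ≤ F j ^ (-δ) := Real.rpow_le_rpow_of_exponent_le hF1 (by rw [hsd]; linarith)
        have hFs : 0 ≤ F j ^ (-s) := Real.rpow_nonneg hFj.le _
        have h8 : F j ^ τ * F j ^ (1 - 2 * ε) * F j ^ (-s) = F j ^ (-δ) := by
          rw [← Real.rpow_add hFj, ← Real.rpow_add hFj]
          congr 1
          rw [hsd]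
          ring
        calc _ ≤ (K * (R + 1) * (1 + Real.log (N j)) ^ 3 * F j ^ (1 - 2 * ε) + 1) * F j ^ (-s) := by gcongr
          _ ≤ (K * (R + 1) * ((1 + 3 / τ) ^ 3 * F j ^ τ) * F j ^ (1 - 2 * ε) + 1) * F j ^ (-s) := by
              have := Real.rpow_nonneg hFj.le (1 - 2 * ε)
              gcongr
          _ = K * (R + 1) * (1 + 3 / τ) ^ 3 * (F j ^ τ * F j ^ (1 - 2 * ε) * F j ^ (-s)) + F j ^ (-s) := by ring
          _ ≤ K * (R + 1) * (1 + 3 / τ) ^ 3 * F j ^ (-δ) + F j ^ (-δ) := by rw [h8]; linarith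
          _ = W * F j ^ (-δ) := by rw [hW]; ring
    refine ne_top_of_le_ne_top ?_ (ENNReal.tsum_le_tsum hrow)
    have hW0 : 0 ≤ W := by rw [hW]; positivity
    rw [← ENNReal.ofReal_tsum_of_nonneg (fun j => mul_nonneg hW0 (Real.rpow_nonneg (hF0 j).le _))]
    · exact ENNReal.ofReal_ne_top
    · exact hs.mul_left W
  refine le_trans (dimH_mono ?_) (Pool.Agent.R942.AX.dimH_limsup U hs0 hsum)
  rintro u ⟨hu0, huR, hbad⟩
  -- large scales
  obtain ⟨B, hB⟩ : ∃ B : ℝ, B = (16 * Real.pi * C + 1) ^ (1 / ε) := ⟨_, rfl⟩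
  have hpi := Real.pi_pos
  have hB0 : 0 < B := by rw [hB]; positivity
  have hev : ∀ᶠ j in atTop, 16 * Real.pi * C ≤ F j ^ ε := by
    have h1 := hs.tendsto_atTop_zero.eventually (gt_mem_nhds (Real.rpow_pos_of_pos hB0 (-δ)))
    filter_upwards [h1] with j hj
    have h2 : B < F j := by
      by_contra hcon
      push Not at hcon
      have := Real.rpow_le_rpow_of_nonpos (hF0 j) hcon (by linarith : -δ ≤ 0)
      linarith
    have h3 : B ^ ε ≤ F j ^ ε := Real.rpow_le_rpow hB0.le h2.le hε.le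
    have h4 : B ^ ε = 16 * Real.pi * C + 1 := by
      rw [hB, ← Real.rpow_mul (by positivity), one_div, inv_mul_cancel₀ hε.ne', Real.rpow_one]
    linarith
  rw [not_eventually] at hbad
  have hinf : {j : ℕ | 16 * Real.pi * C ≤ F j ^ ε ∧ ¬ Good ε (N j) (F j) (f j) (r j) u}.Infinite := by
    rw [← Nat.frequently_atTop_iff_infinite]
    exact (hbad.and_eventually hev).mono (fun j h => ⟨h.2, h.1⟩)
  show {p | u ∈ U p}.Infinite
  refine Set.Infinite.of_image Prod.fst (hinf.mono ?_)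
  rintro j ⟨hlarge, hg⟩
  have hFj := hF0 j
  obtain ⟨k, hk1, hk2⟩ : ∃ k : ℕ, (k : ℝ) / F j ≤ u ∧ u ≤ ((k : ℝ) + 1) / F j := by
    refine ⟨⌊u * F j⌋₊, ?_, ?_⟩
    · rw [div_le_iff₀ hFj]
      exact Nat.floor_le (mul_nonneg hu0 hFj.le)
    · rw [le_div_iff₀ hFj]
      exact (Nat.lt_floor_add_one _).le
  refine ⟨(j, k), ?_, rfl⟩
  show u ∈ U (j, k)
  have hb : Bad j k := by
    rw [hBad]
    refine ⟨hlarge, ?_⟩
    rcases Nat.eq_zero_or_pos k with h0 | h0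
    · exact Or.inl h0
    · exact Or.inr ⟨h0, u, hk1, hk2, huR, hg⟩
  rw [hU]
  simp only [hb, if_true]
  exact ⟨hk1, hk2⟩

/-- the dimension -/
theorem dim_le (c : ℕ → ℝ) (hc : ∀ j, 0 < c j) (C ε δ : ℝ) (hC : 0 ≤ C) (hε : 0 < ε) (hε2 : ε ≤ 1 / 2) (hδ : 0 < δ)
    (N F : ℕ → ℝ) (f : ℕ → ℝ → ℝ) (r : ℕ → ℕ → ℝ) (hN : ∀ j, 2 ≤ N j) (hF : ∀ j, N j ^ 2 ≤ F j)
    (hf : ∀ j, Adm c C (N j) (F j) (f j)) (hs : Summable fun j => F j ^ (-δ)) :
    dimH {u : ℝ | 0 ≤ u ∧ ¬ ∀ᶠ j in atTop, Good ε (N j) (F j) (f j) (r j) u} ≤ ENNReal.ofReal (1 - 2 * ε + δ) := by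
  have hun : {u : ℝ | 0 ≤ u ∧ ¬ ∀ᶠ j in atTop, Good ε (N j) (F j) (f j) (r j) u} =
      ⋃ R : ℕ, {u : ℝ | 0 ≤ u ∧ u ≤ R ∧ ¬ ∀ᶠ j in atTop, Good ε (N j) (F j) (f j) (r j) u} := by
    ext u
    simp only [Set.mem_iUnion, Set.mem_ofPred_eq]
    constructor
    · rintro ⟨h1, h2⟩
      obtain ⟨R, hR⟩ := exists_nat_ge u
      exact ⟨R, h1, hR, h2⟩
    · rintro ⟨R, h1, _, h2⟩
      exact ⟨h1, h2⟩
  rw [hun, dimH_iUnion]
  refine iSup_le fun R => ?_
  apply ENNReal.le_of_forall_pos_le_add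
  intro τ hτ _
  have h1 := dim_R c hc C ε δ τ hC hε hε2 hδ (by exact_mod_cast hτ) N F f r hN hF hf hs R
  rw [ENNReal.ofReal_add (by linarith) (NNReal.coe_nonneg τ), ENNReal.ofReal_coe_nnreal] at h1
  exact h1

/-- the dimension for rapidly growing `F` -/
theorem dim_le' (c : ℕ → ℝ) (hc : ∀ j, 0 < c j) (C ε : ℝ) (hC : 0 ≤ C) (hε : 0 < ε) (hε2 : ε ≤ 1 / 2)
    (N F : ℕ → ℝ) (f : ℕ → ℝ → ℝ) (r : ℕ → ℕ → ℝ) (hN : ∀ j, 2 ≤ N j) (hF : ∀ j, N j ^ 2 ≤ F j)
    (hf : ∀ j, Adm c C (N j) (F j) (f j)) (hs : ∀ δ : ℝ, 0 < δ → Summable fun j => F j ^ (-δ)) :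
    dimH {u : ℝ | 0 ≤ u ∧ ¬ ∀ᶠ j in atTop, Good ε (N j) (F j) (f j) (r j) u} ≤ ENNReal.ofReal (1 - 2 * ε) := by
  apply ENNReal.le_of_forall_pos_le_add
  intro δ hδ _
  have hδ' : (0 : ℝ) < δ := by exact_mod_cast hδ
  have h1 := dim_le c hc C ε δ hC hε hε2 hδ' N F f r hN hF hf (hs δ hδ')
  rw [ENNReal.ofReal_add (by linarith) (NNReal.coe_nonneg δ), ENNReal.ofReal_coe_nnreal] at h1
  exact h1

lemma null_of_dim {E : Set ℝ} {s : ℝ} (hs : s < 1) (h : dimH E ≤ ENNReal.ofReal s) : volume E = 0 := by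
  rw [← MeasureTheory.hausdorffMeasure_real]
  have h1 : dimH E < ((1 : ℝ≥0) : ℝ≥0∞) := by
    refine lt_of_le_of_lt h ?_
    rw [ENNReal.coe_one, ← ENNReal.ofReal_one]
    exact (ENNReal.ofReal_lt_ofReal_iff one_pos).2 hs
  have := hausdorffMeasure_of_dimH_lt h1
  simpa using this

/-- almost all translates -/
theorem almost_all (c : ℕ → ℝ) (hc : ∀ j, 0 < c j) (C : ℝ) (hC : 0 ≤ C)
    (N F : ℕ → ℝ) (f : ℕ → ℝ → ℝ) (r : ℕ → ℕ → ℝ) (hN : ∀ j, 2 ≤ N j) (hF : ∀ j, N j ^ 2 ≤ F j)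
    (hf : ∀ j, Adm c C (N j) (F j) (f j)) (hs : ∀ δ : ℝ, 0 < δ → Summable fun j => F j ^ (-δ)) :
    ∀ᵐ u : ℝ, 0 ≤ u → ∀ ε : ℝ, 0 < ε → ∀ᶠ j in atTop, Good ε (N j) (F j) (f j) (r j) u := by
  have h1 : ∀ n : ℕ, ∀ᵐ u : ℝ, 0 ≤ u → ∀ᶠ j in atTop, Good (1 / ((n : ℝ) + 2)) (N j) (F j) (f j) (r j) u := by
    intro n
    have hn : (0 : ℝ) < 1 / ((n : ℝ) + 2) := by positivity
    have hn2 : 1 / ((n : ℝ) + 2) ≤ 1 / 2 := by
      apply one_div_le_one_div_of_le (by norm_num)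
      have : (0 : ℝ) ≤ n := Nat.cast_nonneg _
      linarith
    have h2 := null_of_dim (by linarith) (dim_le' c hc C (1 / ((n : ℝ) + 2)) hC hn hn2 N F f r hN hF hf hs)
    rw [ae_iff]
    refine measure_mono_null ?_ h2
    intro u hu
    simp only [Set.mem_ofPred_eq, Classical.not_imp] at hu ⊢
    exact hu
  rw [← ae_all_iff] at h1
  filter_upwards [h1] with u hu hu0 ε hε
  obtain ⟨n, hn⟩ := exists_nat_gt (1 / ε)
  have h2 : 1 / ((n : ℝ) + 2) ≤ ε := by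
    rw [div_le_iff₀ (by positivity)]
    rw [div_lt_iff₀ hε] at hn
    nlinarith
  filter_upwards [hu n hu0] with j hj N1 N2 a1 a2
  refine (hj N1 N2 a1 a2).trans ?_
  have hF1 : 1 ≤ F j := by nlinarith [hN j, hF j]
  have hN0 : 0 ≤ N j := by linarith [hN j]
  have h3 := Real.rpow_le_rpow_of_exponent_le hF1 h2
  have h4 := Real.rpow_nonneg hN0 (1 / 2 : ℝ)
  exact mul_le_mul_of_nonneg_left h3 h4

end Pool.Agent.U365.EP
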